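import Mathlib

/-!
Combinators showing that list operations preserve `Computable`.
-/

set_option autoImplicit false

namespace Pool.Agent.H55

open Encodable

variable {α β γ σ : Type*} [Primcodable α] [Primcodable β] [Primcodable γ] [Primcodable σ]

theorem comp_list_foldl {f : α → List β} {g : α → σ} {h : α → σ × β → σ}
    (hf : Computable f) (hg : Computable g) (hh : Computable₂ h) :
    Computable fun a => (f a).foldl (fun s b => h a (s, b)) (g a) := by
  have hstep : Computable₂ (fun (a : α) (p : ℕ × σ) =>
      (Option.casesOn ((f a)[p.1]?) p.2 (fun b => h a (p.2, b)) : σ)) := by
    refine Computable.option_casesOn (o := fun q : α × (ℕ × σ) => (f q.1)[q.2.1]?)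
      (f := fun q => q.2.2) (g := fun q b => h q.1 (q.2.2, b)) ?_ ?_ ?_
    · exact Computable.list_getElem?.comp (hf.comp Computable.fst)
        (Computable.fst.comp Computable.snd)
    · exact Computable.snd.comp Computable.snd
    · exact hh.comp (Computable.fst.comp Computable.fst)
        ((Computable.snd.comp (Computable.snd.comp Computable.fst)).pair Computable.snd)
  have hrec := Computable.nat_rec (f := fun a => (f a).length) (g := g)
    (h := fun a p => (Option.casesOn ((f a)[p.1]?) p.2 (fun b => h a (p.2, b)) : σ))
    (Computable.list_length.comp hf) hg hstep
  refine hrec.of_eq fun a => ?_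
  have key : ∀ n, n ≤ (f a).length →
      (Nat.rec (g a) (fun y IH => (Option.casesOn ((f a)[y]?) IH (fun b => h a (IH, b)) : σ)) n : σ)
        = ((f a).take n).foldl (fun s b => h a (s, b)) (g a) := by
    intro n
    induction n with
    | zero => intro _; simp
    | succ n ih =>
      intro hn
      have hlt : n < (f a).length := hn
      have e1 : (f a)[n]? = some (f a)[n] := List.getElem?_eq_getElem hlt
      rw [List.take_add_one, List.foldl_append, ← ih (le_of_lt hlt)]
      simp only [e1, Option.toList_some, List.foldl_cons, List.foldl_nil]
  have := key (f a).length le_rfl
  rw [List.take_length] at this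
  exact this

theorem comp_list_flatMap {f : α → List β} {g : α → β → List γ}
    (hf : Computable f) (hg : Computable₂ g) :
    Computable fun a => (f a).flatMap (g a) := by
  have h1 : Computable₂ (fun (a : α) (p : List γ × β) => p.1 ++ g a p.2) :=
    Computable.list_append.comp (Computable.fst.comp Computable.snd)
      (hg.comp Computable.fst (Computable.snd.comp Computable.snd))
  refine (comp_list_foldl hf (Computable.const ([] : List γ)) h1).of_eq fun a => ?_
  have : ∀ (l : List β) (acc : List γ),
      l.foldl (fun s b => s ++ g a b) acc = acc ++ l.flatMap (g a) := by
    intro l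
    induction l with
    | nil => intro acc; simp
    | cons b l ih => intro acc; simp [ih, List.append_assoc]
  simpa using this (f a) []

theorem comp_list_map {f : α → List β} {g : α → β → γ}
    (hf : Computable f) (hg : Computable₂ g) :
    Computable fun a => (f a).map (g a) := by
  have h1 : Computable₂ (fun (a : α) (b : β) => [g a b]) :=
    Computable.list_cons.comp hg (Computable.const [])
  refine (comp_list_flatMap hf h1).of_eq fun a => ?_
  induction f a with
  | nil => simp
  | cons b l ih => simp_all

theorem comp_ite {c : α → Bool} {f g : α → σ} (hc : Computable c) (hf : Computable f)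
    (hg : Computable g) : Computable fun a => if c a then f a else g a := by
  refine (Computable.cond hc hf hg).of_eq fun a => ?_
  cases c a <;> simp

theorem comp_and {f g : α → Bool} (hf : Computable f) (hg : Computable g) :
    Computable fun a => f a && g a :=
  Primrec.and.to_comp.comp hf hg

theorem comp_or {f g : α → Bool} (hf : Computable f) (hg : Computable g) :
    Computable fun a => f a || g a :=
  Primrec.or.to_comp.comp hf hg

theorem comp_not {f : α → Bool} (hf : Computable f) :
    Computable fun a => !(f a) :=
  Primrec.not.to_comp.comp hf

theorem comp_list_any {f : α → List β} {g : α → β → Bool}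
    (hf : Computable f) (hg : Computable₂ g) :
    Computable fun a => (f a).any (g a) := by
  have h1 : Computable₂ (fun (a : α) (p : Bool × β) => p.1 || g a p.2) :=
    comp_or (Computable.fst.comp Computable.snd)
      (hg.comp Computable.fst (Computable.snd.comp Computable.snd))
  refine (comp_list_foldl hf (Computable.const false) h1).of_eq fun a => ?_
  have : ∀ (l : List β) (acc : Bool),
      l.foldl (fun s b => s || g a b) acc = (acc || l.any (g a)) := by
    intro l
    induction l with
    | nil => intro acc; simp
    | cons b l ih => intro acc; simp [ih, Bool.or_assoc]
  simpa using this (f a) false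

theorem comp_list_filter {f : α → List β} {g : α → β → Bool}
    (hf : Computable f) (hg : Computable₂ g) :
    Computable fun a => (f a).filter (g a) := by
  have h1 : Computable₂ (fun (a : α) (b : β) => if g a b then [b] else []) :=
    comp_ite (c := fun p : α × β => g p.1 p.2) hg
      (Computable.list_cons.comp Computable.snd (Computable.const []))
      (Computable.const [])
  refine (comp_list_flatMap hf h1).of_eq fun a => ?_
  induction f a with
  | nil => simp
  | cons b l ih =>
    by_cases hb : g a b <;> simp_all

theorem comp_range {f : α → ℕ} (hf : Computable f) : Computable fun a => List.range (f a) :=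
  Primrec.list_range.to_comp.comp hf

theorem comp_decEq {β : Type*} [Primcodable β] [DecidableEq β] {f g : α → β}
    (hf : Computable f) (hg : Computable g) : Computable fun a => decide (f a = g a) := by
  have h := (Primrec.eq (α := β)).decide.to_comp
  exact h.comp hf hg

theorem comp_decLe {f g : α → ℕ}
    (hf : Computable f) (hg : Computable g) : Computable fun a => decide (f a ≤ g a) := by
  have h := Primrec.nat_le.decide.to_comp
  exact h.comp hf hg

theorem comp_decLt {f g : α → ℕ}
    (hf : Computable f) (hg : Computable g) : Computable fun a => decide (f a < g a) := by
  have h := Primrec.nat_lt.decide.to_comp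
  exact h.comp hf hg

theorem comp_take {f : α → ℕ} {g : α → List β} (hf : Computable f) (hg : Computable g) :
    Computable fun a => (g a).take (f a) :=
  Primrec.list_take.to_comp.comp hf hg

theorem comp_drop {f : α → ℕ} {g : α → List β} (hf : Computable f) (hg : Computable g) :
    Computable fun a => (g a).drop (f a) :=
  Primrec.list_drop.to_comp.comp hf hg

theorem comp_max {f g : α → ℕ} (hf : Computable f) (hg : Computable g) :
    Computable fun a => max (f a) (g a) :=
  Primrec.nat_max.to_comp.comp hf hg

theorem comp_natpair {f g : α → ℕ} (hf : Computable f) (hg : Computable g) :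
    Computable fun a => Nat.pair (f a) (g a) :=
  Primrec₂.natPair.to_comp.comp hf hg

end Pool.Agent.H55
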