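import Mathlib

/-!
Definitions for the local form of Lachlan's theorem (problem MP_57825d_lc).

Oracle computations and the operators `W_r` follow the conventions of the frozen statements
`S14733` and `S14734`: a code `r` acts on pairs of a number and a finite initial segment of the
oracle.
-/

set_option autoImplicit false

namespace Pool.Agent.H55

open Encodable Denumerable
open scoped Classical

/-- The initial segment of length `s` of `X`. -/
def pre (X : ℕ → Bool) (s : ℕ) : List Bool := (List.range s).map X

/-- The characteristic function of a set of natural numbers given by a Boolean sequence, as a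
partial function. -/
def chi (Z : ℕ → Bool) : ℕ →. ℕ := fun n => Part.some (if Z n then 1 else 0)

/-- The code `c` computes the set `B` from the oracle `Z`: every value that `c` gives on a number
`n` and an initial segment of `Z` is the truth value of `n ∈ B`, and for every `n` some initial
segment of `Z` gives a value. -/
def CodeComputes (c : Nat.Partrec.Code) (Z B : ℕ → Bool) : Prop :=
  (∀ n s v, v ∈ c.eval (encode (n, pre Z s)) → v = if B n then 1 else 0) ∧
    (∀ n, ∃ s, (if B n then 1 else 0) ∈ c.eval (encode (n, pre Z s)))

/-- The set `W_r^X`, where the code `r` acts on the initial segments of the oracle. -/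
noncomputable def WSet (r : Nat.Partrec.Code) (X : ℕ → Bool) : ℕ → Bool :=
  fun n => decide (∃ s, (r.eval (encode (n, pre X s))).Dom)

/-- The jump of `X`. -/
noncomputable def jump (X : ℕ → Bool) : ℕ → Bool :=
  fun p => decide (∃ s,
    ((ofNat Nat.Partrec.Code p.unpair.1).eval (encode (p.unpair.2, pre X s))).Dom)

/-- The join `X ⊕ Z` of two sets. -/
def join (X Z : ℕ → Bool) : ℕ → Bool := fun n => if n % 2 = 0 then X (n / 2) else Z (n / 2)

/-- The concatenation `τ ⌢ X` of the string `τ` and the infinite sequence `X`. -/
def prepend (τ : List Bool) (X : ℕ → Bool) : ℕ → Bool :=
  fun x => if x < τ.length then τ.getD x false else X (x - τ.length)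

end Pool.Agent.H55
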