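import Mathlib
import Pool.Agent.helper55.PL.Use

/-!
Total functions recursive in a set of oracles: closure properties, and evaluation of a sequence of
codes.
-/

set_option autoImplicit false

namespace Pool.Agent.H55

open Encodable

/-- The total function `f` is recursive in the set of oracles `O`. -/
def TR (O : Set (ℕ →. ℕ)) (f : ℕ → ℕ) : Prop :=
  Nat.RecursiveIn O (fun n => Part.some (f n))

variable {O : Set (ℕ →. ℕ)}

theorem TR.of_computable {f : ℕ → ℕ} (hf : Computable f) : TR O f :=
  Nat.Partrec.recursiveIn (Partrec.nat_iff.1 hf.partrec)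

theorem TR.comp {f g : ℕ → ℕ} (hf : TR O f) (hg : TR O g) :
    TR O (fun n => f (g n)) :=
  (Nat.RecursiveIn.comp hf hg).of_eq fun _ => Part.bind_some _ _

theorem TR.pair {f g : ℕ → ℕ} (hf : TR O f) (hg : TR O g) :
    TR O (fun n => Nat.pair (f n) (g n)) :=
  (Nat.RecursiveIn.pair hf hg).of_eq fun n => by simp [Seq.seq]

theorem TR.oracle {f : ℕ → ℕ} (h : (fun n => Part.some (f n) : ℕ →. ℕ) ∈ O) : TR O f :=
  Nat.RecursiveIn.oracle _ h

theorem TR.comp_computable {f g : ℕ → ℕ} (hf : Computable f)
    (hg : TR O g) : TR O (fun n => f (g n)) :=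
  (TR.of_computable hf).comp hg

theorem TR.comp_computable₂ {f : ℕ → ℕ → ℕ} {g h : ℕ → ℕ}
    (hf : Computable₂ f) (hg : TR O g) (hh : TR O h) :
    TR O (fun n => f (g n) (h n)) := by
  have h1 : Computable (fun p : ℕ => f p.unpair.1 p.unpair.2) :=
    hf.comp (Computable.fst.comp Computable.unpair) (Computable.snd.comp Computable.unpair)
  have := TR.comp_computable (O := O) h1 (hg.pair hh)
  simpa using this

theorem TR.prec {f h : ℕ → ℕ} (hf : TR O f) (hh : TR O h) :
    TR O (fun p => Nat.rec (f p.unpair.1)
      (fun y i => h (Nat.pair p.unpair.1 (Nat.pair y i))) p.unpair.2) := by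
  refine (Nat.RecursiveIn.prec hf hh).of_eq fun p => ?_
  change (Nat.rec (Part.some (f p.unpair.1)) (fun y IH => IH.bind fun i =>
    Part.some (h (Nat.pair p.unpair.1 (Nat.pair y i)))) p.unpair.2 : Part ℕ) =
    Part.some (Nat.rec (f p.unpair.1)
      (fun y i => h (Nat.pair p.unpair.1 (Nat.pair y i))) p.unpair.2 : ℕ)
  induction p.unpair.2 with
  | zero => rfl
  | succ n ih =>
    simp only
    rw [ih]
    simp

/-- The code of the initial segment of `Z`, as a function of its length. -/
theorem TR.pre {Z : ℕ → Bool} (hZ : TR O (fun n => if Z n then 1 else 0)) :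
    TR O (fun n => encode (pre Z n)) := by
  have h0 : TR O (fun _ => encode ([] : List Bool)) :=
    TR.of_computable (Computable.const _)
  let st : ℕ → ℕ → ℕ := fun i b =>
    encode (((decode (α := List Bool) i).getD []) ++ [decide (b = 1)])
  have hst : Computable₂ st := by
    refine Computable.encode.comp ?_
    refine Computable.list_append.comp ?_ ?_
    · exact Computable.option_getD (Computable.decode.comp Computable.fst) (Computable.const [])
    · exact Computable.list_cons.comp (comp_decEq Computable.snd (Computable.const 1))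
        (Computable.const [])
  have h1 : TR O (fun p : ℕ => st p.unpair.2.unpair.2
      ((fun n => if Z n then 1 else 0) p.unpair.2.unpair.1)) := by
    refine TR.comp_computable₂ hst (TR.of_computable ?_) (hZ.comp
      (TR.of_computable ?_))
    · exact Computable.snd.comp (Computable.unpair.comp (Computable.snd.comp Computable.unpair))
    · exact Computable.fst.comp (Computable.unpair.comp (Computable.snd.comp Computable.unpair))
  have h2 := (TR.prec h0 h1).comp (TR.pair (TR.of_computable (Computable.const 0))
    (TR.of_computable Computable.id))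
  refine (h2 : Nat.RecursiveIn _ _).of_eq fun n => ?_
  simp only [Nat.unpair_pair, id_eq, Part.some_inj]
  induction n with
  | zero => rfl
  | succ n ih =>
    simp only
    rw [ih]
    simp only [st, encodek, Option.getD_some]
    congr 1
    rw [Pool.Agent.H55.pre, Pool.Agent.H55.pre, List.range_succ, List.map_append]
    congr 1
    cases hZ : Z n <;> simp [hZ]

theorem TR.find {h : ℕ → ℕ} (hh : TR O h)
    (hex : ∀ a, ∃ n, h (Nat.pair a n) = 0) :
    ∃ g : ℕ → ℕ, TR O g ∧ ∀ a, h (Nat.pair a (g a)) = 0 := by
  refine ⟨fun a => Nat.find (hex a), ?_, fun a => Nat.find_spec (hex a)⟩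
  refine (Nat.RecursiveIn.rfind hh).of_eq fun a => ?_
  refine Part.eq_some_iff.2 ?_
  refine (mem_rfind0 (G := fun n => Part.some (h (Nat.pair a n)))).2 ⟨?_, fun m hm => ?_⟩
  · rw [Nat.find_spec (hex a)]; exact Part.mem_some _
  · exact ⟨h (Nat.pair a m), Nat.find_min (hex a) hm, Part.mem_some _⟩

/-- If the codes `k n` compute the sets `B n` from `A`, then `n ↦ B n m` is recursive in
`A` and `k`. -/
theorem TR.eval_codes {A : ℕ → Bool} {B : ℕ → ℕ → Bool} {k : ℕ → Nat.Partrec.Code} {m : ℕ}
    (hA : TR O (fun n => if A n then 1 else 0)) (hk : TR O (fun n => encode (k n)))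
    (h : ∀ n, CodeComputes (k n) A (B n)) : TR O (fun n => if B n m then 1 else 0) := by
  let ev : ℕ → ℕ → Option ℕ := fun e q =>
    Nat.Partrec.Code.evaln q.unpair.1 ((decode (α := Nat.Partrec.Code) e).getD default)
      (encode (m, ((decode (α := List Bool) q.unpair.2).getD [])))
  have hev : Computable₂ ev := by
    have h1 : Computable (fun x : ℕ × ℕ =>
        ((x.2.unpair.1, (decode (α := Nat.Partrec.Code) x.1).getD default),
        encode (m, ((decode (α := List Bool) x.2.unpair.2).getD [])))) := by
      refine Computable.pair (Computable.pair ?_ ?_) ?_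
      · exact Computable.fst.comp (Computable.unpair.comp Computable.snd)
      · exact Computable.option_getD (Computable.decode.comp Computable.fst) (Computable.const _)
      · refine Computable.encode.comp (Computable.pair (Computable.const m) ?_)
        exact Computable.option_getD (Computable.decode.comp
          (Computable.snd.comp (Computable.unpair.comp Computable.snd))) (Computable.const [])
    exact (Nat.Partrec.Code.primrec_evaln.to_comp).comp h1
  have hq : TR O (fun p => Nat.pair (p.unpair.2.unpair.1)
      (encode (Pool.Agent.H55.pre A p.unpair.2.unpair.2))) := by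
    refine TR.pair (TR.of_computable ?_) ((TR.pre hA).comp (TR.of_computable ?_))
    · exact Computable.fst.comp (Computable.unpair.comp (Computable.snd.comp Computable.unpair))
    · exact Computable.snd.comp (Computable.unpair.comp (Computable.snd.comp Computable.unpair))
  have hev1 : Computable₂ (fun n q => if (ev n q).isSome then 0 else 1) := by
    refine comp_ite (c := fun x : ℕ × ℕ => (ev x.1 x.2).isSome) ?_ (Computable.const 0)
      (Computable.const 1)
    exact (Primrec.option_isSome.to_comp).comp hev
  have hev2 : Computable₂ (fun n q => (ev n q).getD 0) :=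
    Computable.option_getD hev (Computable.const 0)
  have hk1 : TR O (fun p : ℕ => encode (k p.unpair.1)) :=
    hk.comp (TR.of_computable (Computable.fst.comp Computable.unpair))
  have htest : TR O (fun p => (fun n q => if (ev n q).isSome then 0 else 1)
      (encode (k p.unpair.1))
      (Nat.pair (p.unpair.2.unpair.1) (encode (Pool.Agent.H55.pre A p.unpair.2.unpair.2)))) :=
    TR.comp_computable₂ hev1 hk1 hq
  obtain ⟨g, hg, hg0⟩ := TR.find htest (by
    intro n
    obtain ⟨s, hs⟩ := (h n).2 m
    obtain ⟨t, ht⟩ := Nat.Partrec.Code.evaln_complete.1 hs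
    refine ⟨Nat.pair t s, ?_⟩
    simp only [Nat.unpair_pair, ev, encodek, Option.getD_some]
    rw [if_pos]
    rw [Option.mem_def] at ht
    rw [ht]; rfl)
  have hval : TR O (fun n => (fun n q => (ev n q).getD 0) (encode (k n))
      (Nat.pair ((g n).unpair.1) (encode (Pool.Agent.H55.pre A (g n).unpair.2)))) := by
    refine TR.comp_computable₂ hev2 hk ?_
    refine TR.pair ((TR.of_computable (Computable.fst.comp Computable.unpair)).comp hg)
      ((TR.pre hA).comp ((TR.of_computable
        (Computable.snd.comp Computable.unpair)).comp hg))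
  refine (hval : Nat.RecursiveIn _ _).of_eq fun n => ?_
  have h0 := hg0 n
  simp only [Nat.unpair_pair, ev, encodek, Option.getD_some] at h0 ⊢
  cases hE : Nat.Partrec.Code.evaln (g n).unpair.1 (k n)
      (encode (m, Pool.Agent.H55.pre A (g n).unpair.2)) with
  | none => rw [hE] at h0; simp at h0
  | some v =>
    have := (h n).1 m (g n).unpair.2 v (Nat.Partrec.Code.evaln_sound (Option.mem_def.2 hE))
    simp [this]

end Pool.Agent.H55
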