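import Mathlib
import Pool.Agent.helper55.PL.TR

/-!
Enumeration on finite strings, the extension search and the switching functionals.
-/

set_option autoImplicit false

namespace Pool.Agent.H55

open Encodable Denumerable
open Nat.Partrec (Code)
open Nat.Partrec.Code (evaln)

/-- `m` is enumerated by the code `c` in `|τ|` steps with a prefix of `τ` as oracle. -/
def en (c : Code) (m : ℕ) (τ : List Bool) : Bool :=
  (List.range (τ.length + 1)).any fun u => (evaln τ.length c (encode (m, τ.take u))).isSome

theorem en_iff {c : Code} {m : ℕ} {τ : List Bool} :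
    en c m τ = true ↔ ∃ u, u ≤ τ.length ∧ (evaln τ.length c (encode (m, τ.take u))).isSome := by
  simp only [en, List.any_eq_true, List.mem_range]
  constructor
  · rintro ⟨u, hu, h⟩; exact ⟨u, by omega, h⟩
  · rintro ⟨u, hu, h⟩; exact ⟨u, by omega, h⟩

theorem en_mono {c : Code} {m : ℕ} {σ τ : List Bool} (h : σ <+: τ) (he : en c m σ = true) :
    en c m τ = true := by
  obtain ⟨u, hu, hs⟩ := en_iff.1 he
  refine en_iff.2 ⟨u, hu.trans h.length_le, ?_⟩
  obtain ⟨ρ, rfl⟩ := h
  rw [List.take_append_of_le_length hu]
  obtain ⟨v, hv⟩ := Option.isSome_iff_exists.1 hs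
  have := Nat.Partrec.Code.evaln_mono (k₁ := σ.length) (k₂ := (σ ++ ρ).length)
    (by simp) (Option.mem_def.2 hv)
  rw [Option.mem_def.1 this]; rfl

theorem en_pre_iff {c : Code} {m : ℕ} (Z : ℕ → Bool) :
    (∃ t, en c m (pre Z t) = true) ↔ ∃ s, (c.eval (encode (m, pre Z s))).Dom := by
  constructor
  · rintro ⟨t, ht⟩
    obtain ⟨u, hu, hs⟩ := en_iff.1 ht
    rw [pre_length] at hu hs
    rw [pre_take Z hu] at hs
    obtain ⟨v, hv⟩ := Option.isSome_iff_exists.1 hs
    exact ⟨u, Part.dom_iff_mem.2 ⟨v, Nat.Partrec.Code.evaln_sound (Option.mem_def.2 hv)⟩⟩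
  · rintro ⟨s, hs⟩
    obtain ⟨v, hv⟩ := Part.dom_iff_mem.1 hs
    obtain ⟨k, hk⟩ := Nat.Partrec.Code.evaln_complete.1 hv
    refine ⟨max k s, en_iff.2 ⟨s, ?_, ?_⟩⟩
    · rw [pre_length]; exact le_max_right _ _
    · rw [pre_length, pre_take Z (le_max_right _ _)]
      have := Nat.Partrec.Code.evaln_mono (le_max_left k s) hk
      rw [Option.mem_def.1 this]; rfl

theorem evaln_comp {α : Type*} [Primcodable α] {k : α → ℕ} {c : α → Code} {n : α → ℕ}
    (hk : Computable k) (hc : Computable c) (hn : Computable n) :
    Computable fun a => evaln (k a) (c a) (n a) :=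
  Computable.comp (f := fun a : (ℕ × Code) × ℕ => evaln a.1.1 a.1.2 a.2)
    (g := fun a => ((k a, c a), n a)) (Nat.Partrec.Code.primrec_evaln.to_comp)
    ((hk.pair hc).pair hn)

theorem en_computable : Computable fun x : (Code × ℕ) × List Bool => en x.1.1 x.1.2 x.2 := by
  refine comp_list_any (f := fun x : (Code × ℕ) × List Bool => List.range (x.2.length + 1))
    (g := fun x u => (evaln x.2.length x.1.1 (encode (x.1.2, x.2.take u))).isSome) ?_ ?_
  · exact comp_range (Computable.succ.comp (Computable.list_length.comp Computable.snd))
  · have h1 : Computable (fun y : ((Code × ℕ) × List Bool) × ℕ => y.1.2.length) :=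
      Computable.list_length.comp (Computable.snd.comp Computable.fst)
    have h2 : Computable (fun y : ((Code × ℕ) × List Bool) × ℕ => y.1.1.1) :=
      Computable.fst.comp (Computable.fst.comp Computable.fst)
    have h3 : Computable (fun y : ((Code × ℕ) × List Bool) × ℕ =>
        encode (y.1.1.2, y.1.2.take y.2)) :=
      Computable.encode.comp (Computable.pair
        (Computable.snd.comp (Computable.fst.comp Computable.fst))
        (comp_take Computable.snd (Computable.snd.comp Computable.fst)))
    exact (Primrec.option_isSome.to_comp).comp (evaln_comp h1 h2 h3)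

attribute [irreducible] en

/-- `σ` is a prefix of `τ` (Boolean test). -/
def isPre (σ τ : List Bool) : Bool := decide (τ.take σ.length = σ)

theorem isPre_iff {σ τ : List Bool} : isPre σ τ = true ↔ σ <+: τ := by
  rw [isPre, decide_eq_true_eq, List.prefix_iff_eq_take]
  exact eq_comm

/-- Candidate number `N` for the extension search; `x` is a pair of a number `m` and a
string `σ`. -/
def cand (r : Code) (x : ℕ × List Bool) (N : ℕ) : Option (List Bool) :=
  if isPre x.2 ((decode N).getD []) && en r x.1 ((decode N).getD []) then
    some ((decode N).getD []) else none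

/-- Search for an extension of `σ` on which `m` is enumerated. -/
def srch (r : Code) (x : ℕ × List Bool) : Part (List Bool) := Nat.rfindOpt (cand r x)

theorem cand_computable (r : Code) : Computable₂ (cand r) := by
  have hd : Computable (fun x : (ℕ × List Bool) × ℕ => (decode (α := List Bool) x.2).getD []) :=
    Computable.option_getD (Computable.decode.comp Computable.snd) (Computable.const [])
  have h2 : Computable (fun x : (ℕ × List Bool) × ℕ => x.1.2) :=
    Computable.snd.comp Computable.fst
  have h1 : Computable (fun x : (ℕ × List Bool) × ℕ => x.1.1) :=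
    Computable.fst.comp Computable.fst
  refine comp_ite (c := fun x : (ℕ × List Bool) × ℕ => isPre x.1.2 ((decode x.2).getD []) &&
    en r x.1.1 ((decode x.2).getD [])) (comp_and ?_ ?_) ?_ (Computable.const none)
  · exact comp_decEq (comp_take (Computable.list_length.comp h2) hd) h2
  · exact en_computable.comp (Computable.pair (Computable.pair (Computable.const r) h1) hd)
  · exact Computable.option_some.comp hd

theorem srch_partrec (r : Code) : Partrec (srch r) :=
  Partrec.rfindOpt (cand_computable r)

theorem srch_spec {r : Code} {x : ℕ × List Bool} {τ : List Bool} (h : τ ∈ srch r x) :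
    x.2 <+: τ ∧ en r x.1 τ = true := by
  obtain ⟨N, hN⟩ := Nat.rfindOpt_spec h
  simp only [cand, Option.mem_def] at hN
  split_ifs at hN with h1
  rw [Bool.and_eq_true] at h1
  simp only [Option.some.injEq] at hN
  subst hN
  exact ⟨isPre_iff.1 h1.1, h1.2⟩

theorem srch_dom {r : Code} {x : ℕ × List Bool} :
    (srch r x).Dom ↔ ∃ τ, x.2 <+: τ ∧ en r x.1 τ = true := by
  constructor
  · intro h
    exact ⟨(srch r x).get h, srch_spec (Part.get_mem h)⟩
  · rintro ⟨τ, h1, h2⟩
    refine Nat.rfindOpt_dom.2 ⟨encode τ, τ, ?_⟩
    simp only [cand, encodek, Option.getD_some, Option.mem_def]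
    rw [if_pos]
    rw [Bool.and_eq_true]
    exact ⟨isPre_iff.2 h1, h2⟩

/-- `n`, as an element of the jump, is enumerated on `ρ`. -/
def ev (n : ℕ) (ρ : List Bool) : Bool := en (ofNat Code n.unpair.1) n.unpair.2 ρ

theorem ev_computable : Computable₂ ev := by
  have h0 : Computable (fun x : ℕ × List Bool => x.1.unpair) :=
    Computable.unpair.comp Computable.fst
  have h1 : Computable (fun x : ℕ × List Bool => ofNat Code x.1.unpair.1) :=
    (Computable.ofNat Code).comp (Computable.fst.comp h0)
  have h2 : Computable (fun x : ℕ × List Bool => x.1.unpair.2) := Computable.snd.comp h0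
  have h3 : Computable (fun x : ℕ × List Bool =>
      ((ofNat Code x.1.unpair.1, x.1.unpair.2), x.2)) :=
    Computable.pair (Computable.pair h1 h2) Computable.snd
  exact en_computable.comp h3

/-- First `t ≤ x` such that `n` is enumerated on `ρ ↾ t`; the value is `x + 1` if there is
none. -/
def fev (n x : ℕ) (ρ : List Bool) : ℕ :=
  ((List.range (x + 1)).filter fun t => ev n (ρ.take t)).head?.getD (x + 1)

theorem fev_computable : Computable fun y : (ℕ × ℕ) × List Bool => fev y.1.1 y.1.2 y.2 := by
  have h1 : Computable fun y : (ℕ × ℕ) × List Bool =>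
      (List.range (y.1.2 + 1)).filter fun t => ev y.1.1 (y.2.take t) := by
    refine comp_list_filter (f := fun y : (ℕ × ℕ) × List Bool => List.range (y.1.2 + 1))
      (g := fun y t => ev y.1.1 (y.2.take t)) ?_ ?_
    · exact comp_range (Computable.succ.comp (Computable.snd.comp Computable.fst))
    · exact ev_computable.comp (Computable.fst.comp (Computable.fst.comp Computable.fst))
        (comp_take Computable.snd (Computable.snd.comp Computable.fst))
  exact Computable.option_getD ((Primrec.list_head?.to_comp).comp h1)
    (Computable.succ.comp (Computable.snd.comp Computable.fst))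

theorem fev_none {n x : ℕ} {ρ : List Bool} (h : ∀ t ≤ x, ev n (ρ.take t) = false) :
    fev n x ρ = x + 1 := by
  have : (List.range (x + 1)).filter (fun t => ev n (ρ.take t)) = [] := by
    rw [List.filter_eq_nil_iff]
    intro t ht
    rw [List.mem_range] at ht
    simp [h t (by omega)]
  rw [fev, this]; rfl

theorem head?_filter_range {p : ℕ → Bool} {N t : ℕ} (ht : t < N) (h1 : p t = true)
    (h2 : ∀ u < t, p u = false) : ((List.range N).filter p).head? = some t := by
  have hN : N = t + (N - t) := by omega
  rw [hN, List.range_add, List.filter_append]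
  have h3 : (List.range t).filter p = [] := by
    rw [List.filter_eq_nil_iff]
    intro u hu
    rw [List.mem_range] at hu
    simp [h2 u hu]
  rw [h3, List.nil_append]
  obtain ⟨d, hd⟩ : ∃ d, N - t = d + 1 := ⟨N - t - 1, by omega⟩
  rw [hd, List.range_succ_eq_map]
  simp [h1]

theorem fev_some {n x t : ℕ} {ρ : List Bool} (ht : t ≤ x) (h1 : ev n (ρ.take t) = true)
    (h2 : ∀ u < t, ev n (ρ.take u) = false) : fev n x ρ = t := by
  rw [fev, head?_filter_range (by omega) h1 h2]; rfl

/-- The position from which the extension search starts. -/
def pos (y : (ℕ × ℕ) × List Bool) : List Bool := y.2.take (fev y.1.1 y.1.2 y.2)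

theorem pos_computable : Computable pos := comp_take fev_computable Computable.snd

/-- `0` or `1`. -/
def b2n (b : Bool) : ℕ := if b then 1 else 0

theorem b2n_computable : Computable b2n :=
  comp_ite Computable.id (Computable.const 1) (Computable.const 0)

/-- Output of the forward functional. -/
def outF (y : (ℕ × ℕ) × List Bool) (τ : List Bool) : Option ℕ :=
  if decide (y.1.2 < y.2.length) then some (b2n ((τ ++ y.2).getD y.1.2 false)) else none

/-- Output of the backward functional. -/
def outB (y : (ℕ × ℕ) × List Bool) (τ : List Bool) : Option ℕ :=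
  if decide (y.1.2 < y.2.length) then
    (if decide (fev y.1.1 y.1.2 y.2 = y.1.2 + 1) then some (b2n (y.2.getD y.1.2 false))
      else (y.2[τ.length + y.1.2]?).map b2n) else none

theorem getD_computable : Computable₂ (fun (l : List Bool) (n : ℕ) => l.getD n false) :=
  (Primrec.list_getD false).to_comp

theorem x_computable : Computable (fun q : ((ℕ × ℕ) × List Bool) × List Bool => q.1.1.2) :=
  Computable.snd.comp (Computable.fst.comp Computable.fst)

theorem rho_computable : Computable (fun q : ((ℕ × ℕ) × List Bool) × List Bool => q.1.2) :=
  Computable.snd.comp Computable.fst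

theorem test_computable : Computable (fun q : ((ℕ × ℕ) × List Bool) × List Bool =>
    decide (q.1.1.2 < q.1.2.length)) :=
  comp_decLt x_computable (Computable.list_length.comp rho_computable)

theorem outF_computable : Computable₂ outF := by
  refine comp_ite test_computable ?_ (Computable.const none)
  refine Computable.option_some.comp (b2n_computable.comp ?_)
  exact getD_computable.comp (Computable.list_append.comp Computable.snd rho_computable)
    x_computable

theorem outB_computable : Computable₂ outB := by
  refine comp_ite test_computable (comp_ite ?_ ?_ ?_) (Computable.const none)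
  · exact comp_decEq (fev_computable.comp Computable.fst) (Computable.succ.comp x_computable)
  · refine Computable.option_some.comp (b2n_computable.comp ?_)
    exact getD_computable.comp rho_computable x_computable
  · refine Computable.option_map ?_ (b2n_computable.comp Computable.snd)
    refine Computable.list_getElem?.comp rho_computable ?_
    exact Primrec.nat_add.to_comp.comp (Computable.list_length.comp Computable.snd) x_computable

/-- Forward functional: computes the switched set from the original one. -/
def fwd (r : Code) (m : ℕ) (y : (ℕ × ℕ) × List Bool) : Part ℕ :=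
  (srch r (m, pos y)).bind fun τ => (outF y τ : Part ℕ)

/-- Backward functional: computes the original set from the switched one. -/
def bwd (r : Code) (m : ℕ) (y : (ℕ × ℕ) × List Bool) : Part ℕ :=
  (srch r (m, pos y)).bind fun τ => (outB y τ : Part ℕ)

theorem fwd_partrec (r : Code) (m : ℕ) : Partrec (fwd r m) :=
  Partrec.bind ((srch_partrec r).comp (Computable.pair (Computable.const m) pos_computable))
    (Computable.ofOption outF_computable)

theorem bwd_partrec (r : Code) (m : ℕ) : Partrec (bwd r m) :=
  Partrec.bind ((srch_partrec r).comp (Computable.pair (Computable.const m) pos_computable))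
    (Computable.ofOption outB_computable)

end Pool.Agent.H55
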