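import Mathlib
import Pool.Agent.helper55.PL.Ext

/-!
Local form of Lachlan's theorem on uniformly degree invariant enumeration operators.
-/

set_option autoImplicit false

namespace Pool.Agent.H55

open Encodable Denumerable
open Nat.Partrec (Code)
open scoped Classical

theorem WSet_iff {r : Code} {X : ℕ → Bool} {n : ℕ} :
    WSet r X n = true ↔ ∃ t, en r n (pre X t) = true := by
  rw [WSet, decide_eq_true_eq, en_pre_iff]

theorem jump_iff {X : ℕ → Bool} {n : ℕ} :
    jump X n = true ↔ ∃ t, ev n (pre X t) = true := by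
  rw [jump, decide_eq_true_eq, ← en_pre_iff]
  rfl

theorem exists_alive {r : Code} {X : ℕ → Bool}
    (hX : ¬ TuringReducible (chi (WSet r X)) (chi (join X (jump fun _ => false)))) :
    ∃ m, WSet r X m = false ∧ ∀ s, ∃ τ, pre X s <+: τ ∧ en r m τ = true := by
  by_contra hcon
  push Not at hcon
  apply hX
  set K : ℕ → Bool := jump fun _ => false with hK
  set Z := join X K with hZ
  -- the code for the search
  have hF : Partrec₂ (fun (q : ℕ) (_ : List Bool) =>
      (srch r (q.unpair.1, (decode (α := List Bool) q.unpair.2).getD [])).map encode) := by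
    refine Partrec.map ((srch_partrec r).comp (Computable.pair ?_ ?_))
      (Computable.encode.comp Computable.snd)
    · exact Computable.fst.comp (Computable.unpair.comp Computable.fst)
    · exact Computable.option_getD (Computable.decode.comp
        (Computable.snd.comp (Computable.unpair.comp Computable.fst))) (Computable.const [])
  obtain ⟨c, hc⟩ := exists_code_of_partrec₂ hF
  have hKc : ∀ m σ, K (Nat.pair (encode c) (Nat.pair m (encode σ))) = true ↔
      ∃ τ : List Bool, σ <+: τ ∧ en r m τ = true := by
    intro m σ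
    rw [hK, jump, decide_eq_true_eq]
    simp only [Nat.unpair_pair, ofNat_encode]
    simp only [hc, Nat.unpair_pair, encodek, Option.getD_some]
    constructor
    · rintro ⟨_, h⟩
      exact srch_dom.1 h
    · intro h
      exact ⟨0, srch_dom.2 h⟩
  have hTX : TR {chi Z} (fun n => if X n then 1 else 0) := by
    have h1 : TR {chi Z} (fun n => if Z n then 1 else 0) := TR.oracle (Set.mem_singleton _)
    have h2 := h1.comp (TR.of_computable (f := fun n => 2 * n)
      (Primrec.nat_mul.to_comp.comp (Computable.const 2) Computable.id))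
    refine (h2 : Nat.RecursiveIn _ _).of_eq fun n => ?_
    have h3 : Z (2 * n) = X n := by simp [hZ, join]
    simp only [h3]
  have hTK : TR {chi Z} (fun n => if K n then 1 else 0) := by
    have h1 : TR {chi Z} (fun n => if Z n then 1 else 0) := TR.oracle (Set.mem_singleton _)
    have h2 := h1.comp (TR.of_computable (f := fun n => 2 * n + 1)
      (Computable.succ.comp (Primrec.nat_mul.to_comp.comp (Computable.const 2) Computable.id)))
    refine (h2 : Nat.RecursiveIn _ _).of_eq fun n => ?_
    have h3 : Z (2 * n + 1) = K n := by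
      have h4 : (2 * n + 1) / 2 = n := by omega
      have h5 : (2 * n + 1) % 2 = 1 := by omega
      simp [hZ, join, h4, h5]
    simp only [h3]
  -- the number `pair m (encode (pre X s))` from `pair m s`
  have hq : TR {chi Z} (fun p => Nat.pair p.unpair.1 (encode (pre X p.unpair.2))) :=
    TR.pair (TR.of_computable (Computable.fst.comp Computable.unpair))
      ((TR.pre hTX).comp (TR.of_computable (Computable.snd.comp Computable.unpair)))
  have he : Computable (fun q : ℕ =>
      en r q.unpair.1 ((decode (α := List Bool) q.unpair.2).getD [])) := by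
    have h1 : Computable (fun q : ℕ => q.unpair.1) := Computable.fst.comp Computable.unpair
    have h2 : Computable (fun q : ℕ => (decode (α := List Bool) q.unpair.2).getD []) :=
      Computable.option_getD (Computable.decode.comp (Computable.snd.comp Computable.unpair))
        (Computable.const [])
    exact en_computable.comp (Computable.pair (Computable.pair (Computable.const r) h1) h2)
  let fT : ℕ → ℕ → ℕ := fun q b =>
      if (en r q.unpair.1 ((decode (α := List Bool) q.unpair.2).getD []) ||
        decide (b = 0)) then 0 else 1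
  have hfT : Computable₂ fT := by
    refine comp_ite (c := fun x : ℕ × ℕ =>
      (en r x.1.unpair.1 ((decode (α := List Bool) x.1.unpair.2).getD []) || decide (x.2 = 0)))
      (comp_or (he.comp Computable.fst) (comp_decEq Computable.snd (Computable.const 0)))
      (Computable.const 0) (Computable.const 1)
  have hT : TR {chi Z} (fun p => fT
      (Nat.pair p.unpair.1 (encode (pre X p.unpair.2)))
      ((fun n => if K n then 1 else 0)
        (Nat.pair (encode c) (Nat.pair p.unpair.1 (encode (pre X p.unpair.2)))))) :=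
    TR.comp_computable₂ hfT hq
      (hTK.comp (TR.pair (TR.of_computable (Computable.const (encode c))) hq))
  have hmono : ∀ (m s t : ℕ), s ≤ t → en r m (pre X s) = true → en r m (pre X t) = true :=
    fun m s t h h' => en_mono (pre_mono X h) h'
  obtain ⟨g, hg, hg0⟩ := TR.find hT (by
    intro m
    cases hW : WSet r X m with
    | true =>
      obtain ⟨t, ht⟩ := WSet_iff.1 hW
      refine ⟨t, ?_⟩
      simp [fT, Nat.unpair_pair, encodek, ht]
    | false =>
      obtain ⟨s, hs⟩ := hcon m hW
      refine ⟨s, ?_⟩
      have : K (Nat.pair (encode c) (Nat.pair m (encode (pre X s)))) = false := by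
        rw [← Bool.not_eq_true, hKc]
        rintro ⟨τ, h1, h2⟩
        exact hs τ h1 h2
      simp [fT, Nat.unpair_pair, encodek, this])
  have hval : TR {chi Z} (fun n => (fun q : ℕ =>
      if en r q.unpair.1 ((decode (α := List Bool) q.unpair.2).getD []) then 1 else 0)
      (Nat.pair n (encode (pre X (g n))))) :=
    TR.comp_computable (comp_ite he (Computable.const 1) (Computable.const 0))
      (TR.pair (TR.of_computable Computable.id) ((TR.pre hTX).comp hg))
  refine RecursiveIn.iff_nat.2 ((hval : Nat.RecursiveIn _ _).of_eq fun m => ?_)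
  have h0 := hg0 m
  simp only [fT, Nat.unpair_pair, encodek, Option.getD_some] at h0 ⊢
  have key : en r m (pre X (g m)) = WSet r X m := by
    cases hE : en r m (pre X (g m)) with
    | true => exact (WSet_iff.2 ⟨_, hE⟩).symm
    | false =>
      rw [hE] at h0
      simp only [Bool.false_or] at h0
      have hKf : K (Nat.pair (encode c) (Nat.pair m (encode (pre X (g m))))) = false := by
        cases hk : K (Nat.pair (encode c) (Nat.pair m (encode (pre X (g m))))) with
        | false => rfl
        | true => rw [hk] at h0; simp at h0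
      symm
      rw [← Bool.not_eq_true, WSet_iff]
      rintro ⟨t, ht⟩
      have h1 : ¬ ∃ τ : List Bool, pre X (g m) <+: τ ∧ en r m τ = true := by
        rw [← hKc, hKf]; simp
      exact h1 ⟨pre X (max (g m) t), pre_mono X (le_max_left _ _),
        hmono m t _ (le_max_right _ _) ht⟩
  rw [key]; rfl

theorem prepend_lt {τ : List Bool} {X : ℕ → Bool} {x : ℕ} (h : x < τ.length) :
    prepend τ X x = τ.getD x false := by rw [prepend, if_pos h]

theorem prepend_add {τ : List Bool} {X : ℕ → Bool} (x : ℕ) :
    prepend τ X (τ.length + x) = X x := by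
  rw [prepend, if_neg (by omega), Nat.add_sub_cancel_left]

theorem pre_prepend (τ : List Bool) (X : ℕ → Bool) : pre (prepend τ X) τ.length = τ := by
  refine List.ext_getElem? fun i => ?_
  by_cases hi : i < τ.length
  · rw [pre_getElem? _ hi, prepend_lt hi]
    simp [hi]
  · rw [List.getElem?_eq_none (by rw [pre_length]; omega), List.getElem?_eq_none (by omega)]

theorem getD_of_prefix {σ τ : List Bool} (h : σ <+: τ) {x : ℕ} (hx : x < σ.length) :
    τ.getD x false = σ.getD x false := by
  obtain ⟨ρ, rfl⟩ := h
  rw [List.getD_append _ _ _ _ hx]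

theorem pre_congr {X Y : ℕ → Bool} {s : ℕ} (h : ∀ x < s, X x = Y x) : pre X s = pre Y s := by
  unfold pre
  refine List.map_congr_left fun x hx => h x (List.mem_range.1 hx)

/-- Data describing how `Y` is obtained from `X` for the number `n`: either `n` is never
enumerated and `Y = X`, or `T` is the first stage at which it is enumerated and `Y = τ ⌢ X`
where `τ` is the result of the extension search. -/
inductive Sw (r : Code) (m : ℕ) (X : ℕ → Bool) (n : ℕ) : (ℕ → Bool) → Prop
  | id (h : ∀ t, ev n (pre X t) = false) : Sw r m X n X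
  | sw (T : ℕ) (h1 : ev n (pre X T) = true) (h2 : ∀ t < T, ev n (pre X t) = false)
      (τ : List Bool) (h3 : τ ∈ srch r (m, pre X T)) : Sw r m X n (prepend τ X)

theorem exists_sw {r : Code} {m : ℕ} {X : ℕ → Bool}
    (hal : ∀ s, ∃ τ, pre X s <+: τ ∧ en r m τ = true) (n : ℕ) : ∃ Y, Sw r m X n Y := by
  by_cases h : ∃ t, ev n (pre X t) = true
  · have hd : (srch r (m, pre X (Nat.find h))).Dom := srch_dom.2 (hal _)
    exact ⟨_, Sw.sw (Nat.find h) (Nat.find_spec h)
      (fun t ht => by simpa using Nat.find_min h ht) _ (Part.get_mem hd)⟩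
  · push Not at h
    exact ⟨X, Sw.id fun t => by simpa using h t⟩

/-- The situation below a number `x`. -/
theorem Sw.cases {r : Code} {m : ℕ} {X Y : ℕ → Bool} {n : ℕ} (hY : Sw r m X n Y) (x : ℕ) :
    (∃ T ≤ x, ∃ τ ∈ srch r (m, pre X T), Y = prepend τ X ∧ pre Y T = pre X T ∧
      ev n (pre X T) = true ∧ ∀ t < T, ev n (pre X t) = false) ∨
    (pre Y (x + 1) = pre X (x + 1) ∧ ∀ t ≤ x, ev n (pre X t) = false) := by
  cases hY with
  | id h => exact Or.inr ⟨rfl, fun t _ => h t⟩
  | sw T h1 h2 τ h3 =>
    have hp : pre X T <+: τ := (srch_spec h3).1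
    have hl : T ≤ τ.length := by simpa [pre_length] using hp.length_le
    have hT : pre (prepend τ X) T = pre X T := by
      refine pre_congr fun x hx => ?_
      rw [prepend_lt (by omega), getD_of_prefix hp (by rwa [pre_length]), pre_getD X hx]
    by_cases hx : T ≤ x
    · exact Or.inl ⟨T, hx, τ, h3, rfl, hT, h1, h2⟩
    · refine Or.inr ⟨?_, fun t ht => h2 t (by omega)⟩
      rw [← pre_take (prepend τ X) (show x + 1 ≤ T by omega), hT, pre_take X (by omega)]

theorem fev_pre_some {n x s T : ℕ} {Z : ℕ → Bool} (hs : x < s) (hT : T ≤ x)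
    (h1 : ev n (pre Z T) = true) (h2 : ∀ t < T, ev n (pre Z t) = false) :
    fev n x (pre Z s) = T := by
  refine fev_some hT ?_ fun u hu => ?_
  · rw [pre_take Z (by omega)]; exact h1
  · rw [pre_take Z (by omega)]; exact h2 u hu

theorem fev_pre_none {n x s : ℕ} {Z : ℕ → Bool} (hs : x < s)
    (h2 : ∀ t ≤ x, ev n (pre Z t) = false) :
    fev n x (pre Z s) = x + 1 := by
  refine fev_none fun u hu => ?_
  rw [pre_take Z (by omega)]; exact h2 u hu

theorem pre_eq_of_le {X Y : ℕ → Bool} {s t : ℕ} (h : pre Y s = pre X s) (ht : t ≤ s) :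
    pre Y t = pre X t := by
  rw [← pre_take Y ht, h, pre_take X ht]

theorem eq_of_pre {X Y : ℕ → Bool} {s x : ℕ} (h : pre Y s = pre X s) (hx : x < s) :
    Y x = X x := by
  rw [← pre_getD Y hx false, h, pre_getD X hx false]

theorem append_pre_getD (τ : List Bool) (X : ℕ → Bool) {x s : ℕ} (h : x < s) :
    (τ ++ pre X s).getD x false = prepend τ X x := by
  by_cases hx : x < τ.length
  · rw [List.getD_append _ _ _ _ hx, prepend_lt hx]
  · rw [List.getD_append_right _ _ _ _ (by omega), prepend, if_neg hx,
      pre_getD X (by omega)]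

/-- Value of the forward functional. -/
theorem fwd_value {r : Code} {m : ℕ} {X Y : ℕ → Bool} {n : ℕ} (hY : Sw r m X n Y) {x s v : ℕ}
    (hv : v ∈ fwd r m ((n, x), pre X s)) : v = b2n (Y x) := by
  obtain ⟨τ, h1, h2⟩ := Part.mem_bind_iff.1 hv
  simp only [outF, decide_eq_true_eq, pre_length] at h2
  by_cases hs : x < s
  · rw [if_pos hs] at h2
    simp only [Part.coe_some, Part.mem_some_iff] at h2
    rw [h2, append_pre_getD τ X hs]
    congr 1
    rcases hY.cases x with ⟨T, hT, τ', h3, h4, _, h6, h7⟩ | ⟨h3, h4⟩
    · simp only [pos] at h1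
      rw [fev_pre_some hs hT h6 h7, pre_take X (by omega)] at h1
      rw [Part.mem_unique h1 h3, h4]
    · simp only [pos] at h1
      rw [fev_pre_none hs h4, pre_take X (by omega)] at h1
      have h5 := (srch_spec h1).1
      have h6 : x < τ.length := by
        have := h5.length_le
        simp only [pre_length] at this
        omega
      rw [prepend_lt h6, getD_of_prefix h5 (by simp [pre_length]), pre_getD X (by omega),
        eq_of_pre h3 (by omega)]
  · rw [if_neg hs] at h2
    simp at h2

theorem fwd_total {r : Code} {m : ℕ} {X : ℕ → Bool}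
    (hal : ∀ s, ∃ τ, pre X s <+: τ ∧ en r m τ = true) (n x : ℕ) :
    ∃ s, (fwd r m ((n, x), pre X s)).Dom := by
  refine ⟨x + 1, ?_⟩
  obtain ⟨u, hu⟩ : ∃ u, pos ((n, x), pre X (x + 1)) = pre X u := by
    refine ⟨min (fev n x (pre X (x + 1))) (x + 1), ?_⟩
    simp only [pos]
    by_cases h : fev n x (pre X (x + 1)) ≤ x + 1
    · rw [pre_take X h, min_eq_left h]
    · rw [List.take_of_length_le (by rw [pre_length]; omega), min_eq_right (by omega)]
  have hd : (srch r (m, pos ((n, x), pre X (x + 1)))).Dom := by
    rw [hu]; exact srch_dom.2 (hal u)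
  obtain ⟨τ, hτ⟩ := Part.dom_iff_mem.1 hd
  refine Part.dom_iff_mem.2 ⟨b2n ((τ ++ pre X (x + 1)).getD x false), ?_⟩
  refine Part.mem_bind_iff.2 ⟨τ, hτ, ?_⟩
  simp only [outF, decide_eq_true_eq, pre_length]
  rw [if_pos (by omega)]
  simp

/-- Value of the backward functional. -/
theorem bwd_value {r : Code} {m : ℕ} {X Y : ℕ → Bool} {n : ℕ} (hY : Sw r m X n Y) {x s v : ℕ}
    (hv : v ∈ bwd r m ((n, x), pre Y s)) : v = b2n (X x) := by
  obtain ⟨τ, h1, h2⟩ := Part.mem_bind_iff.1 hv
  simp only [outB, decide_eq_true_eq, pre_length] at h2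
  by_cases hs : x < s
  · rw [if_pos hs] at h2
    rcases hY.cases x with ⟨T, hT, τ', h3, h4, h5, h6, h7⟩ | ⟨h3, h4⟩
    · have h6' : ev n (pre Y T) = true := by rw [h5]; exact h6
      have h7' : ∀ t < T, ev n (pre Y t) = false := fun t ht => by
        rw [pre_eq_of_le h5 ht.le]; exact h7 t ht
      simp only [pos] at h1
      rw [fev_pre_some hs hT h6' h7', pre_take Y (by omega), h5] at h1
      rw [fev_pre_some hs hT h6' h7', if_neg (by omega)] at h2
      have hτ : τ = τ' := Part.mem_unique h1 h3
      subst hτ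
      simp only [Part.mem_coe, Option.mem_def, Option.map_eq_some_iff] at h2
      obtain ⟨b, hb, rfl⟩ := h2
      have hlt : τ.length + x < s := by
        rw [List.getElem?_eq_some_iff] at hb
        simpa [pre_length] using hb.1
      rw [pre_getElem? Y hlt, h4, prepend_add] at hb
      simp only [Option.some.injEq] at hb
      rw [hb]
    · have h4' : ∀ t ≤ x, ev n (pre Y t) = false := fun t ht => by
        rw [pre_eq_of_le h3 (by omega)]; exact h4 t ht
      rw [fev_pre_none hs h4', if_pos rfl] at h2
      simp only [Part.coe_some, Part.mem_some_iff] at h2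
      rw [h2, pre_getD Y hs, eq_of_pre h3 (by omega)]
  · rw [if_neg hs] at h2
    simp at h2

theorem bwd_total {r : Code} {m : ℕ} {X Y : ℕ → Bool}
    (hal : ∀ s, ∃ τ, pre X s <+: τ ∧ en r m τ = true) {n : ℕ} (hY : Sw r m X n Y) (x : ℕ) :
    ∃ s, (bwd r m ((n, x), pre Y s)).Dom := by
  rcases hY.cases x with ⟨T, hT, τ', h3, h4, h5, h6, h7⟩ | ⟨h3, h4⟩
  · have h6' : ev n (pre Y T) = true := by rw [h5]; exact h6
    have h7' : ∀ t < T, ev n (pre Y t) = false := fun t ht => by
      rw [pre_eq_of_le h5 ht.le]; exact h7 t ht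
    refine ⟨τ'.length + x + 1, Part.dom_iff_mem.2 ⟨b2n (X x), ?_⟩⟩
    have hs : x < τ'.length + x + 1 := by omega
    refine Part.mem_bind_iff.2 ⟨τ', ?_, ?_⟩
    · simp only [pos]
      rw [fev_pre_some hs hT h6' h7', pre_take Y (by omega), h5]
      exact h3
    · simp only [outB, decide_eq_true_eq, pre_length]
      rw [if_pos hs, fev_pre_some hs hT h6' h7', if_neg (by omega),
        pre_getElem? Y (by omega), h4, prepend_add]
      simp
  · have h4' : ∀ t ≤ x, ev n (pre Y t) = false := fun t ht => by
      rw [pre_eq_of_le h3 (by omega)]; exact h4 t ht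
    refine ⟨x + 1, Part.dom_iff_mem.2 ⟨b2n (X x), ?_⟩⟩
    have hs : x < x + 1 := by omega
    obtain ⟨τ, hτ⟩ := Part.dom_iff_mem.1 (srch_dom (r := r) (x := (m, pre X (x + 1))).2 (hal _))
    refine Part.mem_bind_iff.2 ⟨τ, ?_, ?_⟩
    · simp only [pos]
      rw [fev_pre_none hs h4', pre_take Y le_rfl, h3]
      exact hτ
    · simp only [outB, decide_eq_true_eq, pre_length]
      rw [if_pos hs, fev_pre_none hs h4', if_pos rfl, pre_getD Y hs, eq_of_pre h3 (by omega)]
      simp

theorem Sw.exists_prepend {r : Code} {m : ℕ} {X Y : ℕ → Bool} {n : ℕ} (hY : Sw r m X n Y) :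
    ∃ τ : List Bool, Y = prepend τ X := by
  cases hY with
  | id h => exact ⟨[], by funext x; simp [prepend]⟩
  | sw T h1 h2 τ h3 => exact ⟨τ, rfl⟩

/-- The number `n` is in the jump of `X` iff `m` is enumerated by the switched set. -/
theorem Sw.jump_eq {r : Code} {m : ℕ} {X Y : ℕ → Bool} {n : ℕ} (hY : Sw r m X n Y)
    (hm : WSet r X m = false) : WSet r Y m = jump X n := by
  cases hY with
  | id h =>
    rw [hm]
    symm
    rw [← Bool.not_eq_true, jump_iff]
    rintro ⟨t, ht⟩
    rw [h t] at ht
    simp at ht
  | sw T h1 h2 τ h3 =>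
    rw [jump_iff.2 ⟨T, h1⟩, WSet_iff]
    exact ⟨τ.length, by rw [pre_prepend]; exact (srch_spec h3).2⟩

theorem exists_codes {F : (ℕ × ℕ) × List Bool →. ℕ} (hF : Partrec F) :
    ∃ i : ℕ → Code, Computable i ∧ ∀ n x ρ, (i n).eval (encode (x, ρ)) = F ((n, x), ρ) := by
  have hG : Partrec (fun y : ℕ × ℕ × List Bool => F ((y.1, y.2.1), y.2.2)) :=
    hF.comp (Computable.pair (Computable.pair Computable.fst
      (Computable.fst.comp Computable.snd)) (Computable.snd.comp Computable.snd))
  obtain ⟨c, hc⟩ := Nat.Partrec.Code.exists_code.1 hG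
  refine ⟨fun n => c.curry n, ?_, fun n x ρ => ?_⟩
  · exact (Nat.Partrec.Code.primrec₂_curry.to_comp).comp (Computable.const c) Computable.id
  · rw [Nat.Partrec.Code.eval_curry, hc]
    have : Nat.pair n (encode (x, ρ)) = encode (n, (x, ρ)) := rfl
    rw [this]
    simp only [encodek, Part.coe_some, Part.bind_some]
    exact Part.map_id' (fun x => rfl) _

end Pool.Agent.H55
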